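import Pool.Agent.Lib.MP_e8398c_co.H70.Formula

/-!
# q-log-concavity of the q-Narayana numbers (the case `m = 1`)
-/

namespace Pool.Agent.Results.MP_e8398c_co.NarayanaOne

open Finset Polynomial

/-- `(q;q)_a = (1 - q)(1 - q^2) ⋯ (1 - q^a)`, as a polynomial in `q = X`. -/
noncomputable def qPoch (a : ℕ) : ℤ[X] := ∏ i ∈ Finset.range a, (1 - X ^ (i + 1))

/-- For `b ≤ a`: `G` is the Gaussian binomial `(q;q)_a / ((q;q)_b (q;q)_{a-b})`. -/
def IsGauss (a b : ℕ) (G : ℤ[X]) : Prop := G * (qPoch b * qPoch (a - b)) = qPoch a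

/-- For `k + m ≤ n`: `N` is the polynomial
`N^{(m)}_{n,k}(q) = [2m choose m] [n choose m]⁻¹ [n choose k] [n choose k+m]`
(Gaussian binomials). -/
def IsNarayana (m n k : ℕ) (N : ℤ[X]) : Prop :=
  ∃ A B C D : ℤ[X], IsGauss (2 * m) m A ∧ IsGauss n m B ∧ IsGauss n k C ∧
    IsGauss n (k + m) D ∧ B * N = A * C * D

open Pool.Agent.Lib.MP_e8398c_co.H70 in
lemma qPoch_eq (a : ℕ) : qPoch a = poch a := rfl

open Pool.Agent.Lib.MP_e8398c_co.H70 in
lemma gauss_unique {p s : ℕ} {G : ℤ[X]} (h : IsGauss (p + s) p G) :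
    G = Pool.Agent.Lib.MP_e8398c_co.H70.B p s := by
  unfold IsGauss at h
  rw [qPoch_eq, qPoch_eq, qPoch_eq, Nat.add_sub_cancel_left, ← B_mul_poch p s] at h
  exact mul_right_cancel₀ (mul_ne_zero (poch_ne_zero _) (poch_ne_zero _)) h

open Pool.Agent.Lib.MP_e8398c_co.H70 in
lemma isGauss_B (p s : ℕ) : IsGauss (p + s) p (B p s) := by
  unfold IsGauss
  rw [qPoch_eq, qPoch_eq, qPoch_eq, Nat.add_sub_cancel_left]
  exact B_mul_poch p s

open Pool.Agent.Lib.MP_e8398c_co.H70 in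
lemma B_one_one : B 1 1 = 1 + X := by
  rw [B_succ 0 0, B_zero_right, B_zero_left]; ring

open Pool.Agent.Lib.MP_e8398c_co.H70 in
lemma B_one (s : ℕ) : B 1 s * (1 - X) = 1 - X ^ (s + 1) := by
  induction s with
  | zero => rw [B_zero_right]; ring
  | succ s ih =>
    rw [B_succ 0 s, B_zero_left, add_mul, ih]; ring

open Pool.Agent.Lib.MP_e8398c_co.H70 in
lemma one_sub_X_ne : (1 - X : ℤ[X]) ≠ 0 := by
  simpa using one_sub_ne_zero 0

open Pool.Agent.Lib.MP_e8398c_co.H70 in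
lemma narayana_eq {p s : ℕ} {N : ℤ[X]} (h : IsNarayana 1 (p + s + 1) p N) :
    N = (1 + X) * W p s s := by
  obtain ⟨A, B', C, D, hA, hB, hC, hD, h⟩ := h
  have eA : A = B 1 1 := gauss_unique (p := 1) (s := 1) hA
  have eB : B' = B 1 (p + s) := by
    apply gauss_unique
    rw [show 1 + (p + s) = p + s + 1 by ring]; exact hB
  have eC : C = B p (s + 1) := gauss_unique (p := p) (s := s + 1) hC
  have eD : D = B (p + 1) s := by
    apply gauss_unique
    rw [show p + 1 + s = p + s + 1 by ring]; exact hD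
  subst eA eB eC eD
  have hne : (1 - X ^ (p + s + 1) : ℤ[X]) ≠ 0 := one_sub_ne_zero _
  apply mul_left_cancel₀ hne
  have h2 := W_formula p s
  calc (1 - X ^ (p + s + 1)) * N = (1 - X) * (B 1 (p + s) * N) := by
        rw [← B_one (p + s)]; ring
    _ = (1 + X) * ((1 - X) * (B p (s + 1) * B (p + 1) s)) := by rw [h, B_one_one]; ring
    _ = _ := by rw [← h2]; ring

open Pool.Agent.Lib.MP_e8398c_co.H70 in
lemma isNarayana_W (p s : ℕ) : IsNarayana 1 (p + s + 1) p ((1 + X) * W p s s) := by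
  refine ⟨B 1 1, B 1 (p + s), B p (s + 1), B (p + 1) s, isGauss_B 1 1, ?_, isGauss_B p (s + 1),
    ?_, ?_⟩
  · have := isGauss_B 1 (p + s)
    rw [show 1 + (p + s) = p + s + 1 by ring] at this; exact this
  · have := isGauss_B (p + 1) s
    rw [show p + 1 + s = p + s + 1 by ring] at this; exact this
  · apply mul_left_cancel₀ one_sub_X_ne
    have h2 := W_formula p s
    calc (1 - X) * (B 1 (p + s) * ((1 + X) * W p s s))
        = (1 + X) * ((1 - X ^ (p + s + 1)) * W p s s) := by rw [← B_one (p + s)]; ring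
      _ = _ := by rw [h2, B_one_one]; ring

lemma nonneg_mul {f g : ℤ[X]} (hf : ∀ i, 0 ≤ f.coeff i) (hg : ∀ i, 0 ≤ g.coeff i) :
    ∀ i, 0 ≤ (f * g).coeff i := by
  intro i
  rw [Polynomial.coeff_mul]
  exact Finset.sum_nonneg fun x _ => mul_nonneg (hf _) (hg _)

lemma nonneg_one_add_X : ∀ i, 0 ≤ (1 + X : ℤ[X]).coeff i := by
  intro i
  rw [Polynomial.coeff_add, Polynomial.coeff_one, Polynomial.coeff_X]
  split_ifs <;> norm_num

open Pool.Agent.Lib.MP_e8398c_co.H70 in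
/-- For `m = 1` and all `n`: every `N^{(1)}_{n,k}(q)`, `0 ≤ k ≤ n - 1`, is a well-defined
polynomial, and the sequence `(N^{(1)}_{n,k}(q))_{0 ≤ k ≤ n-1}` is q-log-concave. -/
theorem result :
    (∀ n k : ℕ, k + 1 ≤ n → ∃! N : ℤ[X], IsNarayana 1 n k N) ∧
    (∀ n k : ℕ, 1 ≤ k → k + 2 ≤ n → ∀ Na Nb Nc : ℤ[X],
      IsNarayana 1 n (k - 1) Na → IsNarayana 1 n k Nb → IsNarayana 1 n (k + 1) Nc →
      ∀ i : ℕ, 0 ≤ (Nb ^ 2 - Na * Nc).coeff i) := by
  constructor
  · intro n k hk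
    obtain ⟨s, rfl⟩ : ∃ s, n = k + s + 1 := ⟨n - k - 1, by omega⟩
    exact ⟨_, isNarayana_W k s, fun N hN => narayana_eq hN⟩
  · intro n k hk hn Na Nb Nc h1 h2 h3
    obtain ⟨p, rfl⟩ : ∃ p, k = p + 1 := ⟨k - 1, by omega⟩
    obtain ⟨s, rfl⟩ : ∃ s, n = p + s + 3 := ⟨n - p - 3, by omega⟩
    rw [Nat.add_sub_cancel, show p + s + 3 = p + (s + 2) + 1 by ring] at h1
    rw [show p + s + 3 = (p + 1) + (s + 1) + 1 by ring] at h2
    rw [show p + 1 + 1 = p + 2 by ring, show p + s + 3 = (p + 2) + s + 1 by ring] at h3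
    rw [narayana_eq h1, narayana_eq h2, narayana_eq h3]
    have key : ∀ i, 0 ≤ (W (p + 1) (s + 1) (s + 1) * W (p + 1) (s + 1) (s + 1) -
        W p (s + 2) (s + 2) * W (p + 2) s s).coeff i := by
      intro i
      rw [Polynomial.coeff_sub]
      have := W_concave p s i
      linarith
    have := nonneg_mul (nonneg_mul nonneg_one_add_X nonneg_one_add_X) key
    intro i
    have h := this i
    have e : ((1 + X) * W (p + 1) (s + 1) (s + 1)) ^ 2 -
        (1 + X) * W p (s + 2) (s + 2) * ((1 + X) * W (p + 2) s s) =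
        (1 + X) * (1 + X) * (W (p + 1) (s + 1) (s + 1) * W (p + 1) (s + 1) (s + 1) -
        W p (s + 2) (s + 2) * W (p + 2) s s) := by ring
    rw [e]
    exact h

end Pool.Agent.Results.MP_e8398c_co.NarayanaOne
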